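import Pool.Agent.Helper93_FL.RDefs

/-!
# R1: the half sets are pairwise independent up to a summable error
-/

open Finset

namespace Pool.Agent.FL.H46

open Pool.Agent.FL

theorem Lz_pos (m : ℕ) : 1 ≤ Lb m := by
  unfold Lb
  have := sz_pos m
  have h2 : 0 < 2 ^ m := by positivity
  exact Nat.one_le_iff_ne_zero.2 (by positivity)

/-- flipping a bit -/
theorem flip_lt {w z L : ℕ} (hw : w < 2 ^ L) (hz : z < L) : w ^^^ 2 ^ z < 2 ^ L :=
  Nat.xor_lt_two_pow hw (Nat.pow_lt_pow_right (by norm_num) hz)

theorem flip_flip (w z : ℕ) : (w ^^^ 2 ^ z) ^^^ 2 ^ z = w := by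
  rw [Nat.xor_assoc, Nat.xor_self, Nat.xor_zero]

theorem testBit_flip_self (w z : ℕ) : (w ^^^ 2 ^ z).testBit z = !w.testBit z := by
  rw [Nat.testBit_xor, Nat.testBit_two_pow_self]
  cases w.testBit z <;> rfl

theorem testBit_flip_ne (w : ℕ) {z z' : ℕ} (h : z ≠ z') :
    (w ^^^ 2 ^ z).testBit z' = w.testBit z' := by
  rw [Nat.testBit_xor, Nat.testBit_two_pow_of_ne h]
  cases w.testBit z' <;> rfl

theorem card_bit {L z : ℕ} (hz : z < L) (P : ℕ → Prop) [DecidablePred P]
    (hP : ∀ w, P (w ^^^ 2 ^ z) ↔ P w) :
    2 * ((range (2 ^ L)).filter (fun w => P w ∧ w.testBit z = true)).card =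
      ((range (2 ^ L)).filter P).card := by
  have h1 : ((range (2 ^ L)).filter (fun w => P w ∧ w.testBit z = true)).card =
      ((range (2 ^ L)).filter (fun w => P w ∧ ¬ w.testBit z = true)).card := by
    apply card_bij (fun w _ => w ^^^ 2 ^ z)
    · intro w hw
      simp only [mem_filter, mem_range] at hw ⊢
      refine ⟨flip_lt hw.1 hz, (hP w).2 hw.2.1, ?_⟩
      rw [testBit_flip_self, hw.2.2]
      simp
    · intro a _ b _ h
      have h2 : (a ^^^ 2 ^ z) ^^^ 2 ^ z = (b ^^^ 2 ^ z) ^^^ 2 ^ z :=
        congrArg (fun w => w ^^^ 2 ^ z) h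
      rwa [flip_flip, flip_flip] at h2
    · intro w hw
      simp only [mem_filter, mem_range] at hw
      refine ⟨w ^^^ 2 ^ z, ?_, flip_flip w z⟩
      simp only [mem_filter, mem_range]
      refine ⟨flip_lt hw.1 hz, (hP w).2 hw.2.1, ?_⟩
      rw [testBit_flip_self]
      simpa using hw.2.2
  have h2 := Finset.card_filter_add_card_filter_not (s := (range (2 ^ L)).filter P)
    (fun w : ℕ => w.testBit z = true)
  rw [filter_filter, filter_filter] at h2
  omega

theorem card_one {L z : ℕ} (hz : z < L) :
    2 * ((range (2 ^ L)).filter (fun w => w.testBit z = true)).card = 2 ^ L := by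
  have := card_bit hz (fun _ => True) (fun _ => Iff.rfl)
  simpa using this

theorem card_two {L z z' : ℕ} (hz : z < L) (hz' : z' < L) (h : z ≠ z') :
    4 * ((range (2 ^ L)).filter (fun w => w.testBit z = true ∧ w.testBit z' = true)).card
      = 2 ^ L := by
  have h1 := card_bit hz' (fun w => w.testBit z = true) (fun w => by
    rw [testBit_flip_ne w h.symm])
  have h2 := card_one hz
  omega

/-- counting in `w * L + z` coordinates -/
theorem card_prod (L M : ℕ) (hL : 0 < L) (P : ℕ → Prop) [DecidablePred P] :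
    ((range (L * M)).filter P).card =
      ∑ z ∈ range L, ((range M).filter (fun w => P (w * L + z))).card := by
  have h1 : ((range (L * M)).filter P).card =
      ((range L ×ˢ range M).filter (fun q : ℕ × ℕ => P (q.2 * L + q.1))).card := by
    apply card_bij (fun x _ => (x % L, x / L))
    · intro x hx
      simp only [mem_filter, mem_range, mem_product] at hx ⊢
      refine ⟨⟨Nat.mod_lt _ hL, Nat.div_lt_of_lt_mul hx.1⟩, ?_⟩
      rw [Nat.div_add_mod']
      exact hx.2
    · intro a _ b _ h
      rw [Prod.mk.injEq] at h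
      rw [← Nat.div_add_mod' a L, ← Nat.div_add_mod' b L, h.1, h.2]
    · rintro ⟨z, w⟩ h
      simp only [mem_filter, mem_range, mem_product] at h
      obtain ⟨⟨hz, hw⟩, hP⟩ := h
      have e1 : (w * L + z) / L = w := by
        rw [Nat.add_comm, Nat.add_mul_div_right _ _ hL, Nat.div_eq_of_lt hz, Nat.zero_add]
      have e2 : (w * L + z) % L = z := by
        rw [Nat.add_comm, Nat.add_mul_mod_self_right, Nat.mod_eq_of_lt hz]
      refine ⟨w * L + z, ?_, by rw [e1, e2]⟩
      simp only [mem_filter, mem_range]
      refine ⟨?_, hP⟩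
      calc w * L + z < w * L + L := by omega
        _ = L * (w + 1) := by ring
        _ ≤ L * M := Nat.mul_le_mul_left _ hw
  rw [h1, card_filter, sum_product]
  apply sum_congr rfl
  intro z _
  rw [card_filter]

theorem inJ_iff {m w z : ℕ} (hz : z < Lb m) :
    inJ m (w * Lb m + z) ↔ w < 2 ^ Lb m ∧ w.testBit z = true := by
  have hL := Lz_pos m
  have e1 : (w * Lb m + z) / Lb m = w := by
    rw [Nat.add_comm, Nat.add_mul_div_right _ _ hL, Nat.div_eq_of_lt hz, Nat.zero_add]
  have e2 : (w * Lb m + z) % Lb m = z := by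
    rw [Nat.add_comm, Nat.add_mul_mod_self_right, Nat.mod_eq_of_lt hz]
  unfold inJ
  rw [e1, e2]
  refine and_congr_left fun _ => ?_
  unfold bs
  constructor
  · intro h
    by_contra hw
    push Not at hw
    have : Lb m * 2 ^ Lb m ≤ Lb m * w := Nat.mul_le_mul_left _ hw
    nlinarith
  · intro h
    calc w * Lb m + z < w * Lb m + Lb m := by omega
      _ = Lb m * (w + 1) := by ring
      _ ≤ Lb m * 2 ^ Lb m := Nat.mul_le_mul_left _ h

open Classical in
theorem cardJ (m : ℕ) : 2 * ((range (bs m)).filter (inJ m)).card = bs m := by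
  have hL := Lz_pos m
  have h1 := card_prod (Lb m) (2 ^ Lb m) hL (inJ m)
  have h2 : ∀ z ∈ range (Lb m),
      2 * ((range (2 ^ Lb m)).filter (fun w => inJ m (w * Lb m + z))).card = 2 ^ Lb m := by
    intro z hz
    refine Eq.trans ?_ (card_one (mem_range.1 hz))
    congr 2
    apply filter_congr
    intro w hw
    rw [inJ_iff (mem_range.1 hz)]
    exact ⟨fun h => h.2, fun h => ⟨mem_range.1 hw, h⟩⟩
  unfold bs at h1 ⊢
  rw [h1, mul_sum, sum_congr rfl h2]
  simp

open Classical in
/-- pairs at distance `d` -/
theorem cardPair (m d : ℕ) (hd : 0 < d) (hd' : d ≤ sz m) (hs : sz m ≤ Lb m) :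
    4 * ((range (bs m)).filter (fun y => inJ m y ∧ inJ m (y + d))).card ≤
      bs m + 4 * (sz m * 2 ^ Lb m) := by
  have hL := Lz_pos m
  have h1 := card_prod (Lb m) (2 ^ Lb m) hL (fun y => inJ m y ∧ inJ m (y + d))
  have h2 : ∀ z ∈ range (Lb m),
      4 * ((range (2 ^ Lb m)).filter
        (fun w => inJ m (w * Lb m + z) ∧ inJ m (w * Lb m + z + d))).card ≤
      2 ^ Lb m + (if Lb m - d ≤ z then 4 * 2 ^ Lb m else 0) := by
    intro z hz
    have hz' := mem_range.1 hz
    by_cases h : Lb m - d ≤ z
    · rw [if_pos h]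
      have h3 : ((range (2 ^ Lb m)).filter
        (fun w => inJ m (w * Lb m + z) ∧ inJ m (w * Lb m + z + d))).card ≤ 2 ^ Lb m := by
        simpa using card_filter_le (range (2 ^ Lb m))
          (fun w => inJ m (w * Lb m + z) ∧ inJ m (w * Lb m + z + d))
      omega
    · rw [if_neg h, Nat.add_zero]
      have hzd : z + d < Lb m := by omega
      refine le_trans ?_ (card_two hz' hzd (by omega)).le
      apply Nat.mul_le_mul_left
      apply card_le_card
      intro w hw
      simp only [mem_filter] at hw ⊢
      rw [inJ_iff hz', Nat.add_assoc, inJ_iff hzd] at hw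
      exact ⟨hw.1, hw.2.1.2, hw.2.2.2⟩
  have h3 : ((range (Lb m)).filter (fun z => Lb m - d ≤ z)).card ≤ sz m := by
    have : (range (Lb m)).filter (fun z => Lb m - d ≤ z) ⊆ Ico (Lb m - d) (Lb m) := by
      intro z hz
      simp only [mem_filter, mem_range] at hz
      exact mem_Ico.2 ⟨hz.2, hz.1⟩
    calc _ ≤ (Ico (Lb m - d) (Lb m)).card := card_le_card this
      _ = Lb m - (Lb m - d) := Nat.card_Ico _ _
      _ ≤ sz m := by omega
  have h4 : ∑ z ∈ range (Lb m), (if Lb m - d ≤ z then 4 * 2 ^ Lb m else 0) ≤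
      4 * (sz m * 2 ^ Lb m) := by
    rw [← sum_filter, sum_const, smul_eq_mul]
    calc _ ≤ sz m * (4 * 2 ^ Lb m) := Nat.mul_le_mul_right _ h3
      _ = _ := by ring
  unfold bs
  rw [h1, mul_sum]
  calc _ ≤ ∑ z ∈ range (Lb m), (2 ^ Lb m + (if Lb m - d ≤ z then 4 * 2 ^ Lb m else 0)) :=
        sum_le_sum h2
    _ ≤ _ := by
      rw [sum_add_distrib, sum_const, card_range, smul_eq_mul]
      omega

open Classical in
theorem shift_le (m a : ℕ) (P : ℕ → Prop) :
    ((range (bs m)).filter (fun x => inJ m (x + a) ∧ P (x + a))).card ≤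
      ((range (bs m)).filter (fun y => inJ m y ∧ P y)).card := by
  apply card_le_card_of_injOn (fun x => x + a)
  · intro x hx
    simp only [coe_filter, mem_range, Set.mem_ofPred_eq] at hx ⊢
    exact ⟨hx.2.1.1, hx.2⟩
  · intro x _ y _ h
    simpa using h

open Classical in
theorem shift_ge (m a : ℕ) :
    ((range (bs m)).filter (inJ m)).card ≤
      ((range (bs m)).filter (fun x => inJ m (x + a))).card + a := by
  have h1 : (range (bs m)).filter (inJ m) ⊆
      ((range (bs m)).filter (fun x => inJ m (x + a))).image (fun x => x + a) ∪ range a := by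
    intro y hy
    simp only [mem_filter, mem_range, mem_union, mem_image] at hy ⊢
    by_cases h : y < a
    · exact Or.inr h
    · left
      refine ⟨y - a, ⟨by omega, ?_⟩, by omega⟩
      rw [Nat.sub_add_cancel (by omega)]
      exact hy.2
  calc ((range (bs m)).filter (inJ m)).card
      ≤ (((range (bs m)).filter (fun x => inJ m (x + a))).image (fun x => x + a) ∪
          range a).card := card_le_card h1
    _ ≤ (((range (bs m)).filter (fun x => inJ m (x + a))).image (fun x => x + a)).card +
          (range a).card := card_union_le _ _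
    _ ≤ _ := by
      rw [card_range]
      exact Nat.add_le_add_right card_image_le _

theorem r1 : R1Stmt := by
  classical
  have hsL : ∀ m, sz m ≤ Lb m := by
    intro m
    unfold Lb
    exact Nat.le_mul_of_pos_left _ (by positivity)
  have hq : ∀ m, (sz m : ℝ) / Lb m = (1 / 2) ^ m := by
    intro m
    unfold Lb
    have := sz_pos m
    have h1 : (sz m : ℝ) ≠ 0 := by positivity
    push_cast
    rw [one_div, inv_pow]
    field_simp
  refine ⟨?_, cardJ, fun m => (hq m).le, ?_⟩
  · intro m
    have hL := Lz_pos m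
    have := (inJ_iff (m := m) (w := 2 ^ Lb m - 1) (z := 0) hL).2
      ⟨Nat.sub_lt (by positivity) one_pos, by
        rw [Nat.testBit_two_pow_sub_one]; simpa using Nat.lt_of_lt_of_le Nat.zero_lt_one hL⟩
    simpa [s0] using this
  · intro m A hA
    set N : ℕ → ℝ := fun x => ((A.filter (fun a => inJ m (x + a))).card : ℝ) with hN
    set b : ℝ := (bs m : ℝ) with hb
    set k : ℝ := (A.card : ℝ) with hk
    set e : ℝ := (1 / 2 : ℝ) ^ m with he
    have hb0 : 0 ≤ b := Nat.cast_nonneg _
    have hk0 : 0 ≤ k := Nat.cast_nonneg _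
    have he0 : 0 ≤ e := by positivity
    have hLpos : (0 : ℝ) < Lb m := by exact_mod_cast Lz_pos m
    -- s * 2 ^ L = b * e
    have hse : (sz m : ℝ) * 2 ^ Lb m = b * e := by
      rw [hb, he, ← hq m]
      unfold bs
      push_cast
      field_simp
    -- single counts
    have hone_le : ∀ a : ℕ, (((range (bs m)).filter (fun x => inJ m (x + a))).card : ℝ) ≤ b / 2 := by
      intro a
      have h1 : ((range (bs m)).filter (fun x => inJ m (x + a))).card ≤
          ((range (bs m)).filter (inJ m)).card := by
        simpa only [and_true] using shift_le m a (fun _ => True)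
      have h2 := cardJ m
      have h3 : (2 * ((range (bs m)).filter (fun x => inJ m (x + a))).card : ℝ) ≤ b := by
        rw [hb]; exact_mod_cast (by omega :
          2 * ((range (bs m)).filter (fun x => inJ m (x + a))).card ≤ bs m)
      linarith
    have hone_ge : ∀ a ∈ A, b * (1 / 2 - e) ≤
        (((range (bs m)).filter (fun x => inJ m (x + a))).card : ℝ) := by
      intro a ha
      have h1 := shift_ge m a
      have h2 := cardJ m
      have h3 : b ≤ (2 * ((range (bs m)).filter (fun x => inJ m (x + a))).card : ℝ) + 2 * a := by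
        rw [hb]; exact_mod_cast (by omega :
          bs m ≤ 2 * ((range (bs m)).filter (fun x => inJ m (x + a))).card + 2 * a)
      have h4 : (a : ℝ) ≤ b * e := by
        rw [← hse]
        have h5 : (a : ℝ) ≤ sz m := by exact_mod_cast (hA a ha).le
        have h6 : (1 : ℝ) ≤ 2 ^ Lb m := one_le_pow₀ (by norm_num)
        have h7 : (0 : ℝ) ≤ sz m := Nat.cast_nonneg _
        nlinarith
      linarith
    -- first moments
    have hNsum : ∑ x ∈ range (bs m), N x =
        ∑ a ∈ A, (((range (bs m)).filter (fun x => inJ m (x + a))).card : ℝ) := by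
      simp only [hN, card_filter]
      push_cast
      rw [sum_comm]
    have hup : ∑ x ∈ range (bs m), N x ≤ b * (k / 2) := by
      rw [hNsum]
      calc _ ≤ ∑ a ∈ A, b / 2 := sum_le_sum fun a _ => hone_le a
        _ = _ := by rw [sum_const, nsmul_eq_mul]; ring
    have hlo : b * (k * (1 / 2 - e)) ≤ ∑ x ∈ range (bs m), N x := by
      rw [hNsum]
      calc b * (k * (1 / 2 - e)) = ∑ a ∈ A, b * (1 / 2 - e) := by
            rw [sum_const, nsmul_eq_mul]; ring
        _ ≤ _ := sum_le_sum hone_ge
    refine ⟨hup, hlo, ?_⟩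
    -- second moment
    have hpair : ∀ a ∈ A, ∀ a' ∈ A, a ≠ a' →
        (((range (bs m)).filter (fun x => inJ m (x + a) ∧ inJ m (x + a'))).card : ℝ) ≤
          b * (1 / 4 + e) := by
      have key : ∀ a ∈ A, ∀ a' ∈ A, a < a' →
        (((range (bs m)).filter (fun x => inJ m (x + a) ∧ inJ m (x + a'))).card : ℝ) ≤
          b * (1 / 4 + e) := by
        intro a ha a' ha' haa
        have h1 := shift_le m a (fun y => inJ m (y + (a' - a)))
        have h2 := cardPair m (a' - a) (by omega) (by have := hA a' ha'; omega) (hsL m)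
        have h3 : (range (bs m)).filter (fun x => inJ m (x + a) ∧ inJ m (x + a + (a' - a))) =
            (range (bs m)).filter (fun x => inJ m (x + a) ∧ inJ m (x + a')) := by
          apply filter_congr
          intro x _
          rw [show x + a + (a' - a) = x + a' by omega]
        rw [h3] at h1
        have h4 : (4 * ((range (bs m)).filter (fun x => inJ m (x + a) ∧ inJ m (x + a'))).card : ℝ)
            ≤ b + 4 * ((sz m : ℝ) * 2 ^ Lb m) := by
          rw [hb]
          exact_mod_cast (le_trans (Nat.mul_le_mul_left 4 h1) h2)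
        rw [hse] at h4
        linarith
      intro a ha a' ha' hne
      rcases lt_or_gt_of_ne hne with h | h
      · exact key a ha a' ha' h
      · have := key a' ha' a ha h
        simpa only [and_comm] using this
    have hN2 : ∑ x ∈ range (bs m), N x ^ 2 =
        ∑ a ∈ A, ∑ a' ∈ A,
          (((range (bs m)).filter (fun x => inJ m (x + a) ∧ inJ m (x + a'))).card : ℝ) := by
      have h1 : ∀ x, N x ^ 2 = ∑ a ∈ A, ∑ a' ∈ A,
          (if inJ m (x + a) ∧ inJ m (x + a') then (1 : ℝ) else 0) := by
        intro x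
        have h2 : N x = ∑ a ∈ A, (if inJ m (x + a) then (1 : ℝ) else 0) := by
          simp only [hN, card_filter]
          push_cast
          rfl
        rw [h2, sq, sum_mul_sum]
        apply sum_congr rfl
        intro a _
        apply sum_congr rfl
        intro a' _
        by_cases h3 : inJ m (x + a) <;> by_cases h4 : inJ m (x + a') <;> simp [h3, h4]
      simp only [h1]
      rw [sum_comm]
      apply sum_congr rfl
      intro a _
      rw [sum_comm]
      apply sum_congr rfl
      intro a' _
      rw [card_filter]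
      push_cast
      rfl
    have hN2le : ∑ x ∈ range (bs m), N x ^ 2 ≤ b * (k / 2 + k ^ 2 * (1 / 4 + e)) := by
      rw [hN2]
      have h1 : ∀ a ∈ A, ∑ a' ∈ A,
          (((range (bs m)).filter (fun x => inJ m (x + a) ∧ inJ m (x + a'))).card : ℝ) ≤
          b / 2 + k * (b * (1 / 4 + e)) := by
        intro a ha
        rw [← add_sum_erase A _ ha]
        have h2 : ((A.erase a).card : ℝ) ≤ k := by
          rw [hk]; exact_mod_cast card_le_card (erase_subset _ _)
        have h3 : (0 : ℝ) ≤ b * (1 / 4 + e) := by positivity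
        gcongr
        · simpa only [and_self] using hone_le a
        · calc _ ≤ ∑ a' ∈ A.erase a, b * (1 / 4 + e) := by
                apply sum_le_sum
                intro a' ha'
                rw [mem_erase] at ha'
                exact hpair a ha a' ha'.2 ha'.1.symm
            _ = ((A.erase a).card : ℝ) * (b * (1 / 4 + e)) := by rw [sum_const, nsmul_eq_mul]
            _ ≤ _ := mul_le_mul_of_nonneg_right h2 h3
      calc _ ≤ ∑ a ∈ A, (b / 2 + k * (b * (1 / 4 + e))) := sum_le_sum h1
        _ = _ := by rw [sum_const, nsmul_eq_mul]; ring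
    have hexp : ∑ x ∈ range (bs m), (N x - k / 2) ^ 2 =
        ∑ x ∈ range (bs m), N x ^ 2 - k * ∑ x ∈ range (bs m), N x + b * (k ^ 2 / 4) := by
      have h1 : ∀ x, (N x - k / 2) ^ 2 = N x ^ 2 - k * N x + k ^ 2 / 4 := fun x => by ring
      simp only [h1]
      rw [sum_add_distrib, sum_sub_distrib, mul_sum, sum_const, card_range, nsmul_eq_mul]
    rw [hexp]
    have h5 : k * (b * (k * (1 / 2 - e))) ≤ k * ∑ x ∈ range (bs m), N x :=
      mul_le_mul_of_nonneg_left hlo hk0
    nlinarith

end Pool.Agent.FL.H46
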