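import Pool.Agent.Helper93_FL.RDefs

/-!
# R6 (core): one step of the iteration detects
-/

open MeasureTheory Set

namespace Pool.Agent.FL.H46

open Pool.Agent.FL

variable {I : Type} [LinearOrder I] [WellFoundedLT I]

/-- The random continuation of the point `y` below `α` with the value `t` at `α`. -/
noncomputable def YY (p : Cond I) (α : I) (z : (Pt I × Br) × (I → Rd)) : Pt I :=
  p.XJ (Set.Iic α) (Function.update z.1.1 α z.1.2) z.2

/-- The positions where the continuation is bad with positive probability. -/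
def NP (p : Cond I) (α : I) (N : Set (Pt I × ℝ)) : Set ((Pt I × Br) × Dg) :=
  {z | mP I {v | (YY p α (z.1, v), DrD z.2) ∈ N} ≠ 0}

/-- The modified random branch at `α`. -/
noncomputable def tt (p : Cond I) (α : I) (τ : Node) (z : (Pt I × Dg) × Rd) : Br :=
  phi (hatT (p.T α z.1.1) τ z.1.2) z.2

def S1 (p : Cond I) (α : I) (τ : Node) : Set ((Pt I × Dg) × Rd) :=
  {z | alive (p.T α z.1.1) τ.length z.1.2 (tt p α τ z)}

def S2 (p : Cond I) (α : I) (N : Set (Pt I × ℝ)) (τ : Node) : Set ((Pt I × Dg) × Rd) :=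
  {z | alive (p.T α z.1.1) τ.length z.1.2 (tt p α τ z) ∧
    ((z.1.1, tt p α τ z), cD τ.length z.1.2 (tt p α τ z)) ∈ NP p α N}

def OK (p : Cond I) (α : I) (N : Set (Pt I × ℝ)) (τ : Node) : Set (Pt I × Dg) :=
  {z | τ ∈ p.T α z.1 ∧ NormGE (p.T α z.1) τ.length 2 ∧ mU {w | (z, w) ∈ S1 p α τ} ≠ 0 ∧
    mU {w | (z, w) ∈ S2 p α N τ} = 0}

omit [WellFoundedLT I] in
theorem measurable_upd (α : I) : Measurable
    (fun z : (Pt I × Br) × (I → Rd) => Function.update z.1.1 α z.1.2) := by
  classical
  refine measurable_pi_iff.2 fun i => ?_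
  by_cases h : i = α
  · subst h
    simp only [Function.update_self]
    exact measurable_fst.snd
  · simp only [Function.update_of_ne h]
    exact (measurable_pi_apply i).comp measurable_fst.fst

section
variable (p : Cond I) (α : I) (N : Set (Pt I × ℝ))

theorem measurable_YY (r5 : R5Stmt) : Measurable (YY p α) := by
  have h := (r5 I p (Set.Iic α) (isLowerSet_Iic α)).2.2.2.2.2
  have a2 : Measurable (fun q : (Pt I × Br) × (I → Rd) => q.2) := measurable_snd
  have h2 := (measurable_upd (I := I) α).prodMk a2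
  have h3 := h.comp h2
  exact h3

theorem YY_congr (r5 : R5Stmt) {y y' : Pt I} (h : ∀ i < α, y i = y' i) (t : Br) (v : I → Rd) :
    YY p α ((y, t), v) = YY p α ((y', t), v) := by
  classical
  have h5 := (r5 I p (Set.Iic α) (isLowerSet_Iic α)).2.2.2.2.1
  apply h5
  · intro i hi
    rcases lt_or_eq_of_le (Set.mem_Iic.1 hi) with h1 | h1
    · simp only [Function.update_of_ne h1.ne]
      exact h i h1
    · subst h1
      simp
  · intro i _
    rfl

theorem NP_congr (r5 : R5Stmt) {y y' : Pt I} (h : ∀ i < α, y i = y' i) (t : Br) (c : Dg) :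
    ((y, t), c) ∈ NP p α N ↔ ((y', t), c) ∈ NP p α N := by
  simp only [NP, Set.mem_ofPred_eq, YY_congr p α r5 h t]

variable (hP : ProdStmt) (hN : MeasurableSet N)
include hP hN

theorem measurableSet_NP (r0 : R0Stmt) (r5 : R5Stmt) : MeasurableSet (NP p α N) := by
  have := (hP.2 I).1
  have hD : Measurable DrD := r0.2.2.2.2.2.1
  have h1 : MeasurableSet {q : ((Pt I × Br) × Dg) × (I → Rd) |
      (YY p α (q.1.1, q.2), DrD q.1.2) ∈ N} := by
    have e1 : Measurable (fun q : ((Pt I × Br) × Dg) × (I → Rd) => (q.1.1, q.2)) :=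
      measurable_fst.fst.prodMk measurable_snd
    have e2 : Measurable (fun q : ((Pt I × Br) × Dg) × (I → Rd) => q.1.2) := measurable_fst.snd
    have e3 := (measurable_YY p α r5).comp e1
    have e4 := hD.comp e2
    have e5 := e3.prodMk e4
    have e6 := hN.preimage e5
    exact e6
  have h2 := measurable_measure_prodMk_left (ν := mP I) h1
  have h3 : NP p α N = {z | mP I (Prod.mk z ⁻¹' {q : ((Pt I × Br) × Dg) × (I → Rd) |
      (YY p α (q.1.1, q.2), DrD q.1.2) ∈ N}) = 0}ᶜ := by
    ext z
    rfl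
  rw [h3]
  exact (measurableSet_eq_fun h2 measurable_const).compl

theorem NP_null (hN0 : ∀ y, muR {x | (y, x) ∈ N} = 0) (r0 : R0Stmt) (r5 : R5Stmt) (y : Pt I)
    (t : Br) : mJ {c | ((y, t), c) ∈ NP p α N} = 0 := by
  have := (hP.2 I).1
  have hD : Measurable DrD := r0.2.2.2.2.2.1
  have hJ : IsProbabilityMeasure mJ := r0.2.2.2.2.1
  have hY : Measurable (fun v : I → Rd => YY p α ((y, t), v)) := by
    have e1 : Measurable (fun v : I → Rd => (((y, t) : Pt I × Br), v)) :=
      measurable_const.prodMk measurable_id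
    have e2 := (measurable_YY p α r5).comp e1
    exact e2
  have h1 : MeasurableSet {q : (I → Rd) × Dg | (YY p α ((y, t), q.1), DrD q.2) ∈ N} := by
    have a1 : Measurable (fun q : (I → Rd) × Dg => q.1) := measurable_fst
    have a2 : Measurable (fun q : (I → Rd) × Dg => q.2) := measurable_snd
    have e1 := hY.comp a1
    have e2 := hD.comp a2
    have e3 := hN.preimage (e1.prodMk e2)
    exact e3
  have h1' : MeasurableSet {q : Dg × (I → Rd) | (YY p α ((y, t), q.2), DrD q.1) ∈ N} := by
    have a1 : Measurable (fun q : Dg × (I → Rd) => q.1) := measurable_fst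
    have a2 : Measurable (fun q : Dg × (I → Rd) => q.2) := measurable_snd
    have e1 := hY.comp a2
    have e2 := hD.comp a1
    have e3 := hN.preimage (e1.prodMk e2)
    exact e3
  have h2 : ((mP I).prod mJ) {q : (I → Rd) × Dg | (YY p α ((y, t), q.1), DrD q.2) ∈ N} = 0 := by
    rw [Measure.measure_prod_null h1]
    refine Filter.Eventually.of_forall fun v => ?_
    have h3 := hN0 (YY p α ((y, t), v))
    have h4 : MeasurableSet {x | (YY p α ((y, t), v), x) ∈ N} := hN.preimage measurable_prodMk_left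
    rw [muR, Measure.map_apply hD h4] at h3
    exact h3
  have h3 : (mJ.prod (mP I)) {q : Dg × (I → Rd) | (YY p α ((y, t), q.2), DrD q.1) ∈ N} = 0 := by
    rw [← Measure.prod_swap, Measure.map_apply measurable_swap h1']
    exact h2
  rw [Measure.measure_prod_null h1'] at h3
  exact ae_iff.1 h3

omit [WellFoundedLT I] hP hN in
theorem measurable_tt (h1 : PhiStmt) (r2 : R2Stmt) (τ : Node) : Measurable (tt p α τ) := by
  have hphi := h1.2.2.2.1
  have hhat := r2.2.2.1 τ
  have e1 : Measurable (fun z : (Pt I × Dg) × Rd => p.T α z.1.1) :=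
    (p.meas α).comp measurable_fst.fst
  have e2 : Measurable (fun z : (Pt I × Dg) × Rd => hatT (p.T α z.1.1) τ z.1.2) := by
    have e3 : Measurable (fun z : (Pt I × Dg) × Rd => z.1.2) := measurable_fst.snd
    have e4 := hhat.comp (e1.prodMk e3)
    exact e4
  have a2 : Measurable (fun q : (Pt I × Dg) × Rd => q.2) := measurable_snd
  have e5 := hphi.comp (e2.prodMk a2)
  exact e5

omit [WellFoundedLT I] hP hN in
theorem measurableSet_S1 (h1 : PhiStmt) (r2 : R2Stmt) (τ : Node) :
    MeasurableSet (S1 p α τ) := by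
  have e1 : Measurable (fun z : (Pt I × Dg) × Rd => p.T α z.1.1) :=
    (p.meas α).comp measurable_fst.fst
  have e3 : Measurable (fun z : (Pt I × Dg) × Rd => z.1.2) := measurable_fst.snd
  have e4 := (e1.prodMk e3).prodMk (measurable_tt p α h1 r2 τ)
  have e5 := (r2.2.2.2.1 τ.length).preimage e4
  exact e5

theorem measurableSet_S2 (h1 : PhiStmt) (r0 : R0Stmt) (r2 : R2Stmt) (r5 : R5Stmt) (τ : Node) :
    MeasurableSet (S2 p α N τ) := by
  have e2 : Measurable (fun z : (Pt I × Dg) × Rd =>
      ((z.1.1, tt p α τ z), cD τ.length z.1.2 (tt p α τ z))) := by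
    have e3 : Measurable (fun z : (Pt I × Dg) × Rd => z.1.2) := measurable_fst.snd
    have e4 : Measurable (fun z : (Pt I × Dg) × Rd => z.1.1) := measurable_fst.fst
    have e5 := measurable_tt p α h1 r2 τ
    have e6 := (r2.2.2.2.2 τ.length).comp (e3.prodMk e5)
    have e7 := (e4.prodMk e5).prodMk e6
    exact e7
  have e8 := (measurableSet_NP p α N hP hN r0 r5).preimage e2
  have e9 := (measurableSet_S1 p α h1 r2 τ).inter e8
  exact e9

theorem measurableSet_OK (h1 : PhiStmt) (r0 : R0Stmt) (r2 : R2Stmt) (r5 : R5Stmt) (τ : Node) :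
    MeasurableSet (OK p α N τ) := by
  have := hP.1
  have e1 : Measurable (fun z : Pt I × Dg => p.T α z.1) := (p.meas α).comp measurable_fst
  have a1 := measurable_measure_prodMk_left (ν := mU) (measurableSet_S1 p α h1 r2 τ)
  have a2 := measurable_measure_prodMk_left (ν := mU) (measurableSet_S2 p α N hP hN h1 r0 r2 r5 τ)
  have b1 := (measurableSet_mem_node τ).preimage e1
  have b2 := (measurableSet_normGE τ.length 2).preimage e1
  have b3 := (measurableSet_eq_fun a1 (measurable_const (a := (0 : ENNReal)))).compl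
  have b4 := measurableSet_eq_fun a2 (measurable_const (a := (0 : ENNReal)))
  have b5 := b1.inter (b2.inter (b3.inter b4))
  exact b5

omit [WellFoundedLT I] hP hN in
theorem tt_congr {y y' : Pt I} (h : ∀ i < α, y i = y' i) (τ : Node) (x : Dg) (w : Rd) :
    tt p α τ ((y, x), w) = tt p α τ ((y', x), w) := by
  simp only [tt, p.T_congr h]

omit [WellFoundedLT I] hP hN in
theorem S1_congr {y y' : Pt I} (h : ∀ i < α, y i = y' i) (τ : Node) (x : Dg) (w : Rd) :
    ((y, x), w) ∈ S1 p α τ ↔ ((y', x), w) ∈ S1 p α τ := by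
  simp only [S1, Set.mem_ofPred_eq, tt_congr p α h, p.T_congr h]

omit hP hN in
theorem S2_congr (r5 : R5Stmt) {y y' : Pt I} (h : ∀ i < α, y i = y' i) (τ : Node) (x : Dg)
    (w : Rd) : ((y, x), w) ∈ S2 p α N τ ↔ ((y', x), w) ∈ S2 p α N τ := by
  simp only [S2, Set.mem_ofPred_eq, tt_congr p α h, p.T_congr h, NP_congr p α N r5 h]

omit hP hN in
theorem OK_congr (r5 : R5Stmt) {y y' : Pt I} (h : ∀ i < α, y i = y' i) (τ : Node) (x : Dg) :
    (y, x) ∈ OK p α N τ ↔ (y', x) ∈ OK p α N τ := by
  simp only [OK, Set.mem_ofPred_eq, S1_congr p α h, S2_congr p α N r5 h, p.T_congr h]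

theorem OK_ae (hN0 : ∀ y, muR {x | (y, x) ∈ N} = 0) (r0 : R0Stmt) (r3 : R3Stmt)
    (r4 : R4Stmt) (r5 : R5Stmt) (y : Pt I) : ∀ᵐ x ∂mL, ∃ τ, (y, x) ∈ OK p α N τ := by
  have a3 : ∀ᵐ x ∂mL, ∀ τ : Node, τ ∈ p.T α y → NormGE (p.T α y) τ.length 2 →
      mU {w | ((y, x), w) ∈ S2 p α N τ} = 0 := by
    rw [ae_all_iff]
    intro τ
    by_cases hτ : τ ∈ p.T α y
    · by_cases hn : NormGE (p.T α y) τ.length 2
      · have hm : MeasurableSet {q : Br × Dg | ((y, q.1), q.2) ∈ NP p α N} :=
          (measurableSet_NP p α N hP hN r0 r5).preimage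
            ((measurable_const.prodMk measurable_fst).prodMk measurable_snd)
        have := r3 (p.T α y) (p.good α y) τ hτ hn _ hm
          (fun t => NP_null p α N hP hN hN0 r0 r5 y t)
        filter_upwards [this] with x hx _ _
        exact hx
      · exact Filter.Eventually.of_forall fun x _ h => (hn h).elim
    · exact Filter.Eventually.of_forall fun x h => (hτ h).elim
  filter_upwards [a3, r4 (p.T α y) (p.good α y)] with x hx3 hx4
  obtain ⟨τ, hτ, hn, h4⟩ := hx4
  exact ⟨τ, hτ, hn, h4, hx3 τ hτ hn⟩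

end

/-- a measurable real function depending on `J` depends on a countable subset of `J` -/
theorem dep_countable (hA : ApiStmt) (J : Set I) (hJ : IsLowerSet J) (f : Pt I → ℝ)
    (hf : Measurable f) (hd : DepFun J f) : ∃ C ⊆ J, C.Countable ∧ DepFun C f := by
  have h := (hA I J hJ).2.2.2.2.2.2.1
  have h2 : ∀ q : ℚ, ∃ C ⊆ J, C.Countable ∧ DepOn C {y | f y < q} := by
    intro q
    apply h _ (measurableSet_lt hf measurable_const)
    intro y y' hy
    simp only [Set.mem_ofPred_eq, hd y y' hy]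
  choose C hCJ hCc hCd using h2
  refine ⟨⋃ q, C q, Set.iUnion_subset hCJ, Set.countable_iUnion hCc, ?_⟩
  intro y y' hy
  have key : ∀ q : ℚ, f y < q ↔ f y' < q := fun q =>
    hCd q y y' (fun i hi => hy i (Set.mem_iUnion.2 ⟨q, hi⟩))
  by_contra hne
  rcases lt_or_gt_of_ne hne with h1 | h1
  · obtain ⟨q, hq1, hq2⟩ := exists_rat_btwn h1
    exact absurd ((key q).1 hq1) (not_lt.2 hq2.le)
  · obtain ⟨q, hq1, hq2⟩ := exists_rat_btwn h1
    exact absurd ((key q).2 hq1) (not_lt.2 hq2.le)

/-- the algebra of the digits -/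
theorem key_id (r0b : R0bStmt) (n : ℕ) (x : Dg) (t : Br) (τ ξ : Node)
    (hx : pre x n = ξ) (ht : pre t n = τ) (k : ℤ) (r : ℝ) (hr : ⌊r⌋ = k)
    (hfr : DrD x = Int.fract r) (hlt : ∀ m, n ≤ m → (x m).val + (t m).val < bs m) :
    r + DrB t + ((-(k : ℚ) + ∑ m ∈ Finset.range n, ((s0 m : ℚ) - (ξ.getD m 0 : ℕ) -
      (τ.getD m 0 : ℕ)) / ∏ i ∈ Finset.range (m + 1), (bs i : ℚ) : ℚ) : ℝ) =
      DrD (cD n x t) := by
  have h := r0b n x t hlt
  have hs : ∑ m ∈ Finset.range n, ((s0 m : ℝ) - (x m).val - (t m).val) /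
      ∏ i ∈ Finset.range (m + 1), (bs i : ℝ) =
      ((∑ m ∈ Finset.range n, ((s0 m : ℚ) - (ξ.getD m 0 : ℕ) -
      (τ.getD m 0 : ℕ)) / ∏ i ∈ Finset.range (m + 1), (bs i : ℚ) : ℚ) : ℝ) := by
    push_cast
    apply Finset.sum_congr rfl
    intro m hm
    rw [Finset.mem_range] at hm
    have e1 : (x m).val = ξ.getD m 0 := by
      rw [← hx, List.getD_eq_getElem _ _ (by simpa using hm), getElem_pre]
    have e2 : (t m).val = τ.getD m 0 := by
      rw [← ht, List.getD_eq_getElem _ _ (by simpa using hm), getElem_pre]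
    rw [e1, e2]
  rw [hs] at h
  rw [← h, hfr]
  push_cast
  have h3 : r = Int.fract r + (k : ℝ) := by
    rw [← hr]
    exact (Int.fract_add_floor r).symm
  linarith

omit [WellFoundedLT I] in
/-- resampling one coordinate -/
theorem resample_one (hP : ProdStmt) (α : I) (E : Set (I → Rd)) (hE : MeasurableSet E) :
    ((∀ u, mU {w | Function.update u α w ∈ E} = 0) → mP I E = 0) ∧
      ((∀ u, mU {w | Function.update u α w ∈ E} ≠ 0) → mP I E ≠ 0) := by
  have := hP.1
  have := (hP.2 I).1
  have h := (hP.2 I).2.2 α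
  have hm : Measurable (fun x : (I → Rd) × Rd => Function.update x.1 α x.2) := by
    refine measurable_pi_iff.2 fun i => ?_
    by_cases h : i = α
    · subst h
      simp only [Function.update_self]
      exact measurable_snd
    · simp only [Function.update_of_ne h]
      exact (measurable_pi_apply i).comp measurable_fst
  have h2 : mP I E = ((mP I).prod mU) ((fun x : (I → Rd) × Rd => Function.update x.1 α x.2) ⁻¹' E) := by
    rw [← Measure.map_apply hm hE, h]
  constructor
  · intro h3
    rw [h2, Measure.measure_prod_null (hE.preimage hm)]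
    exact Filter.Eventually.of_forall fun u => h3 u
  · intro h3 h4
    rw [h2, Measure.measure_prod_null (hE.preimage hm)] at h4
    have h5 : ∀ᵐ u ∂(mP I), False := by
      filter_upwards [h4] with u hu
      exact h3 u hu
    have h6 : mP I {u | ¬ False} = 0 := ae_iff.1 h5
    simp at h6

omit [WellFoundedLT I] in
/-- resampling all the coordinates after `α` -/
theorem resample_above (hP : ProdStmt) (α : I) (E D : Set (I → Rd)) (hE : MeasurableSet E)
    (hD : mP I D = 0) (h : ∀ u, u ∉ D → mP I {v | glueR (Set.Iic α) u v ∈ E} = 0) :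
    mP I E = 0 := by
  have := (hP.2 I).1
  have h1 := (hP.2 I).2.1 (Set.Iic α)
  have hm : Measurable (fun x : (I → Rd) × (I → Rd) => glueR (Set.Iic α) x.1 x.2) := by
    refine measurable_pi_iff.2 fun i => ?_
    by_cases h : i ∈ Set.Iic α
    · simp only [glueR, h, if_true]
      exact (measurable_pi_apply i).comp measurable_fst
    · simp only [glueR, h, if_false]
      exact (measurable_pi_apply i).comp measurable_snd
  have h2 : mP I E = ((mP I).prod (mP I))
      ((fun x : (I → Rd) × (I → Rd) => glueR (Set.Iic α) x.1 x.2) ⁻¹' E) := by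
    rw [← Measure.map_apply hm hE, h1]
  rw [h2, Measure.measure_prod_null (hE.preimage hm)]
  have h3 : ∀ᵐ u ∂(mP I), u ∉ D := by
    rw [ae_iff]
    simpa using hD
  filter_upwards [h3] with u hu
  exact h u hu

omit [WellFoundedLT I] in
/-- The condition `ph`: `q0` below `α`, the modified tree at `α`, the trees of `p` above `α`. -/
theorem exists_ph (r2 : R2Stmt) (p q0 : Cond I) (α : I) (τ : Node) (x : Pt I → Dg)
    (hx : Measurable x) (C : Set I) (hC : C.Countable) (hCα : C ⊆ Set.Iio α) (hxC : DepFun C x)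
    (hτ : ∀ y, (∀ i < α, y i ∈ FL.body (q0.T i y)) → τ ∈ p.T α y) :
    ∃ ph : Cond I, (∀ i < α, ∀ y, ph.T i y = q0.T i y) ∧ (∀ i, α < i → ∀ y, ph.T i y = p.T i y) ∧
      ∀ y, (∀ i < α, y i ∈ FL.body (q0.T i y)) → ph.T α y = hatT (p.T α y) τ (x y) := by
  classical
  let T : I → Pt I → Set Node := fun i y =>
    if i < α then q0.T i y else if i = α then hatT (p.T α y) τ (x y) else p.T i y
  have hTlt : ∀ i < α, T i = q0.T i := by
    intro i hi
    funext y
    simp only [T, hi, if_true]
  have hTα : T α = fun y => hatT (p.T α y) τ (x y) := by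
    funext y
    simp only [T, lt_irrefl, if_true, if_false]
  have hTgt : ∀ i, α < i → T i = p.T i := by
    intro i hi
    funext y
    simp only [T, not_lt.2 hi.le, hi.ne', if_false]
  obtain ⟨ph, hS, hg, hb⟩ := Cond.exists_of_raw T (((q0.S ∪ p.S) ∪ C) ∪ {α})
    (((q0.scount.union p.scount).union hC).union (Set.countable_singleton α))
    (by
      intro i hi y
      simp only [Set.mem_union, Set.mem_singleton_iff, not_or] at hi
      obtain ⟨⟨⟨a1, a2⟩, -⟩, a4⟩ := hi
      rcases lt_trichotomy i α with h | h | h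
      · rw [hTlt i h]; exact q0.full' i a1 y
      · exact (a4 h).elim
      · rw [hTgt i h]; exact p.full' i a2 y)
    (by
      intro i y y' h
      rcases lt_trichotomy i α with h1 | h1 | h1
      · rw [hTlt i h1]
        exact q0.dep i y y' fun j hj hji => h j (by simp [hj]) hji
      · subst h1
        rw [hTα]
        have e1 : p.T i y = p.T i y' := p.dep i y y' fun j hj hji => h j (by simp [hj]) hji
        have e2 : x y = x y' := hxC y y' fun j hj => h j (by simp [hj]) (hCα hj)
        simp only [e1, e2]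
      · rw [hTgt i h1]
        exact p.dep i y y' fun j hj hji => h j (by simp [hj]) hji)
    (by
      intro i
      rcases lt_trichotomy i α with h1 | h1 | h1
      · rw [hTlt i h1]; exact q0.meas i
      · subst h1
        rw [hTα]
        have e1 := (r2.2.2.1 τ).comp ((p.meas i).prodMk hx)
        exact e1
      · rw [hTgt i h1]; exact p.meas i)
  refine ⟨ph, fun i hi y => ?_, fun i hi y => ?_, fun y hy => ?_⟩
  · rw [hg i y (by rw [hTlt i hi]; exact q0.good i y), hTlt i hi]
  · rw [hg i y (by rw [hTgt i hi]; exact p.good i y), hTgt i hi]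
  · have : Good (T α y) := by
      rw [hTα]
      exact (r2.1 (p.T α y) τ (x y) (p.good α y) (hτ y hy)).1
    rw [hg α y this, hTα]

/-- the modified tree is inside the tree -/
theorem body_hatT (r2 : R2Stmt) {T : Set Node} {τ : Node} {x : Dg} (hT : Good T) (hτ : τ ∈ T)
    {t : Br} (ht : t ∈ FL.body (hatT T τ x)) : t ∈ FL.body T ∧ pre t τ.length = τ := by
  have h1 := (r2.1 T τ x hT hτ).2
  refine ⟨fun m => (h1 (ht m)).1, ?_⟩
  rcases (h1 (ht τ.length)).2 with h | h
  · exact h.eq_of_length (by simp)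
  · exact (h.eq_of_length (by simp)).symm

theorem core (h1 : PhiStmt) (hP : ProdStmt) (hX : XStmt) (hPM : PMStmt) (hA : ApiStmt)
    (hC : ConstStmt) (r0 : R0Stmt) (r0b : R0bStmt) (r2 : R2Stmt) (r3 : R3Stmt) (r4 : R4Stmt)
    (r5 : R5Stmt) : CoreStmt := by
  classical
  intro I _ _ p α N hN hN0
  have hDD : Measurable DrD := r0.2.2.2.2.2.1
  have hDB : Measurable DrB := r0.2.2.2.2.2.2.1
  obtain ⟨dg, hdg, hdgD, hdgN⟩ := r0.2.2.2.2.2.2.2
  have hOKm : ∀ τ, MeasurableSet (OK p α N τ) := measurableSet_OK p α N hP hN h1 r0 r2 r5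
  have hOKc : ∀ {y y' : Pt I}, (∀ i < α, y i = y' i) → ∀ (τ : Node) (x : Dg),
      (y, x) ∈ OK p α N τ ↔ (y', x) ∈ OK p α N τ := fun h τ x => OK_congr p α N r5 h τ x
  have hfr : Measurable (fun z : ℝ => dg (Int.fract z)) := hdg.comp measurable_fract
  let Z : Set (Pt I × ℝ) := {z | ∀ τ, (z.1, dg (Int.fract z.2)) ∉ OK p α N τ}
  have hZm : MeasurableSet Z := by
    have e1 : Measurable (fun z : Pt I × ℝ => z.1) := measurable_fst
    have e2 : Measurable (fun z : Pt I × ℝ => z.2) := measurable_snd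
    have e3 := e1.prodMk (hfr.comp e2)
    have e4 : Z = ⋂ τ, ((fun z : Pt I × ℝ => (z.1, dg (Int.fract z.2))) ⁻¹' OK p α N τ)ᶜ := by
      ext z
      simp [Z]
    rw [e4]
    exact MeasurableSet.iInter fun τ => ((hOKm τ).preimage e3).compl
  have hZd : ∀ x : ℝ, DepOn (Set.Iio α) {y | (y, x) ∈ Z} := by
    intro x y y' hy
    simp only [Z, Set.mem_ofPred_eq]
    exact forall_congr' fun τ => not_congr (hOKc (fun i hi => hy i hi) τ _)
  have hZ0 : ∀ y, volume {x | (y, x) ∈ Z} = 0 := by
    intro y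
    have e1 : MeasurableSet {x : Dg | ∀ τ, (y, x) ∉ OK p α N τ} := by
      have e4 : {x : Dg | ∀ τ, (y, x) ∉ OK p α N τ} =
          ⋂ τ, (Prod.mk y ⁻¹' OK p α N τ)ᶜ := by
        ext z
        simp
      rw [e4]
      exact MeasurableSet.iInter fun τ => ((hOKm τ).preimage measurable_prodMk_left).compl
    have e2 : mL {x : Dg | ∀ τ, (y, x) ∉ OK p α N τ} = 0 := by
      have := OK_ae p α N hP hN hN0 r0 r3 r4 r5 y
      rw [ae_iff] at this
      simpa only [not_exists] using this
    exact hdgN _ e1 e2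
  refine ⟨Z, hZm, hZd, hZ0, ?_⟩
  intro r hr hrB f hf hfd hfZ
  have hlow : IsLowerSet (Set.Iio α) := isLowerSet_Iio α
  let x : Pt I → Dg := fun y => dg (Int.fract (f y))
  have hx : Measurable x := hfr.comp hf
  obtain ⟨Cf, hCfα, hCfc, hCf⟩ := dep_countable hA (Set.Iio α) hlow f hf hfd
  have hxC : DepFun Cf x := fun y y' h => by simp only [x, hCf y y' h]
  have hxd : ∀ {y y' : Pt I}, (∀ i < α, y i = y' i) → x y = x y' :=
    fun h => hxC _ _ fun i hi => h i (hCfα hi)
  have hfd' : ∀ {y y' : Pt I}, (∀ i < α, y i = y' i) → f y = f y' :=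
    fun h => hfd _ _ fun i hi => h i hi
  -- thin `r`
  let Bb : Node × ℤ × Node → Set (Pt I) := fun k =>
    {y | (y, x y) ∈ OK p α N k.1 ∧ ⌊f y⌋ = k.2.1 ∧ pre (x y) k.1.length = k.2.2}
  have hBm : ∀ k, MeasurableSet (Bb k) := by
    intro k
    have e1 : Measurable (fun y : Pt I => (y, x y)) := measurable_id.prodMk hx
    have e2 : Measurable (fun y : Pt I => ⌊f y⌋) := Int.measurable_floor.comp hf
    have e3 : MeasurableSet {y : Pt I | ⌊f y⌋ = k.2.1} :=
      e2 (measurableSet_singleton k.2.1)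
    have e4 := (measurableSet_pre_eq (s := bs) k.1.length k.2.2).preimage hx
    have e5 := ((hOKm k.1).preimage e1).inter (e3.inter e4)
    exact e5
  have hBd : ∀ k, DepOn (Set.Iio α) (Bb k) := by
    intro k y y' h
    have h' : ∀ i < α, y i = y' i := fun i hi => h i hi
    simp only [Bb, Set.mem_ofPred_eq, hxd h', hfd' h', hOKc h']
  obtain ⟨e, he⟩ := exists_surjective_nat (Node × ℤ × Node)
  obtain ⟨q0, hq0r, hq0B, k0, hq0⟩ := (hC I (Set.Iio α) hlow r hrB).2.1 (fun n => Bb (e n))
    (fun n => hBm _) (fun n => hBd _) (by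
      intro y hy
      have h2 := hfZ y hy
      simp only [Z, Set.mem_ofPred_eq, not_forall, not_not] at h2
      obtain ⟨τ, hτ⟩ := h2
      obtain ⟨n, hn⟩ := he (τ, ⌊f y⌋, pre (x y) τ.length)
      refine Set.mem_iUnion.2 ⟨n, ?_⟩
      rw [hn]
      exact ⟨hτ, rfl, rfl⟩)
  rcases hek : e k0 with ⟨τ, k, ξ⟩
  rw [hek] at hq0
  have hq0' : ∀ y : Pt I, (∀ i < α, y i ∈ FL.body (q0.T i y)) →
      (y, x y) ∈ OK p α N τ ∧ ⌊f y⌋ = k ∧ pre (x y) τ.length = ξ := by
    intro y hy
    obtain ⟨y', hy', hyy⟩ := q0.exists_ext (Set.Iio α) hlow y (fun i hi => hy i hi)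
    exact (hBd (τ, k, ξ) y' y hyy).1 (hq0 hy')
  obtain ⟨ph, hphlt, hphgt, hphα⟩ := exists_ph r2 p q0 α τ x hx Cf hCfc hCfα hxC
    (fun y hy => (hq0' y hy).1.1)
  have hphbelow : ∀ y ∈ ph.body, ∀ i < α, y i ∈ FL.body (q0.T i y) := by
    intro y hy i hi
    rw [← hphlt i hi y]
    exact hy i
  have hphq0 : ph ≤ q0 := by
    intro y hy i
    by_cases hi : i < α
    · exact hphbelow y hy i hi
    · rw [hq0B i (by simpa using hi) y, body_full]
      trivial
  have hphp : ph ≤ p := by
    intro y hy i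
    rcases lt_trichotomy i α with h | h | h
    · have h2 : y ∈ (p.restr (Set.Iio α)).body := hr (hq0r (hphq0 hy))
      have h3 := h2 i
      simpa [Cond.restr, h] using h3
    · subst h
      have h2 := hphbelow y hy
      have h3 := hy i
      rw [hphα y h2] at h3
      exact (body_hatT r2 (p.good i y) (hq0' y h2).1.1 h3).1
    · have h3 := hy i
      rwa [hphgt i h y] at h3
  -- the constant
  let c : ℚ := -(k : ℚ) + ∑ m ∈ Finset.range τ.length, ((s0 m : ℚ) - (ξ.getD m 0 : ℕ) -
      (τ.getD m 0 : ℕ)) / ∏ i ∈ Finset.range (m + 1), (bs i : ℚ)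
  have hkey : ∀ y ∈ ph.body, alive (p.T α y) τ.length (x y) (y α) →
      f y + DrB (y α) + (c : ℝ) = DrD (cD τ.length (x y) (y α)) := by
    intro y hy hal
    have h2 := hphbelow y hy
    have h3 := hy α
    rw [hphα y h2] at h3
    obtain ⟨h4, h5, h6⟩ := hq0' y h2
    apply key_id r0b τ.length (x y) (y α) τ ξ h6
      (body_hatT r2 (p.good α y) h4.1 h3).2 k (f y) h5
    · exact hdgD _ ⟨Int.fract_nonneg _, Int.fract_lt_one _⟩
    · intro m hm
      exact (r2.2.1 (p.T α y) τ (x y) (y α) (p.good α y) h4.1 h3 hal m hm).1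
  let A : Set (Pt I) := {y | alive (p.T α y) τ.length (x y) (y α) ∧
    (y, f y + DrB (y α) + (c : ℝ)) ∉ N}
  have hyα : Measurable (fun y : Pt I => y α) := measurable_pi_apply α
  have halm : MeasurableSet {y : Pt I | alive (p.T α y) τ.length (x y) (y α)} := by
    have e1 := ((p.meas α).prodMk hx).prodMk hyα
    have e2 := (r2.2.2.2.1 τ.length).preimage e1
    exact e2
  have hAm : MeasurableSet A := by
    have e1 : Measurable (fun y : Pt I => (y, f y + DrB (y α) + (c : ℝ))) :=
      measurable_id.prodMk ((hf.add (hDB.comp hyα)).add measurable_const)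
    exact halm.inter (hN.preimage e1).compl
  -- the random point
  obtain ⟨hX1, hX2, hX3, hX4⟩ := hX I ph
  have hXb : ∀ u, ∀ i < α, ph.X u i ∈ FL.body (q0.T i (ph.X u)) :=
    fun u => hphbelow _ (hX2 u)
  have hupd : ∀ u w, ∀ i < α, ph.X (Function.update u α w) i = ph.X u i := by
    intro u w i hi
    exact hX3 (Set.Iio α) hlow (Function.update u α w) u
      (fun j hj => Function.update_of_ne (ne_of_lt hj) _ _) i hi
  have hupdα : ∀ u w, ph.X (Function.update u α w) α = tt p α τ ((ph.X u, x (ph.X u)), w) := by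
    intro u w
    rw [hX1 (Function.update u α w) α, hphα _ (hXb _), Function.update_self]
    have e1 : p.T α (ph.X (Function.update u α w)) = p.T α (ph.X u) := p.T_congr (hupd u w)
    have e2 : x (ph.X (Function.update u α w)) = x (ph.X u) := hxd (hupd u w)
    rw [e1, e2]
    rfl
  have hself : ∀ u, ph.X u α = tt p α τ ((ph.X u, x (ph.X u)), u α) := by
    intro u
    have := hupdα u (u α)
    rwa [Function.update_eq_self] at this
  let B : Set (I → Rd) := {u | ((ph.X u, x (ph.X u)), u α) ∈ S1 p α τ}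
  let D : Set (I → Rd) := {u | ((ph.X u, x (ph.X u)), u α) ∈ S2 p α N τ}
  let E : Set (I → Rd) := {u | alive (p.T α (ph.X u)) τ.length (x (ph.X u)) (ph.X u α) ∧
    (ph.X u, DrD (cD τ.length (x (ph.X u)) (ph.X u α))) ∈ N}
  have huα : Measurable (fun u : I → Rd => u α) := measurable_pi_apply α
  have hpair : Measurable (fun u : I → Rd => ((ph.X u, x (ph.X u)), u α)) := by
    have e1 := hx.comp hX4
    have e2 := (hX4.prodMk e1).prodMk huα
    exact e2
  have hBme : MeasurableSet B := (measurableSet_S1 p α h1 r2 τ).preimage hpair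
  have hDme : MeasurableSet D := (measurableSet_S2 p α N hP hN h1 r0 r2 r5 τ).preimage hpair
  have hEme : MeasurableSet E := by
    have e1 := halm.preimage hX4
    have e2 := (r2.2.2.2.2 τ.length).comp (hx.prodMk hyα)
    have e3 := hDD.comp e2
    have e4 := (measurable_id (α := Pt I)).prodMk e3
    have e5 := (hN.preimage e4).preimage hX4
    have e6 := e1.inter e5
    exact e6
  have hBne : mP I B ≠ 0 := by
    refine (resample_one hP α B hBme).2 fun u => ?_
    have e1 : {w | Function.update u α w ∈ B} =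
        {w | ((ph.X u, x (ph.X u)), w) ∈ S1 p α τ} := by
      ext w
      simp only [B, Set.mem_ofPred_eq, Function.update_self, hxd (hupd u w)]
      exact S1_congr p α (hupd u w) τ _ w
    rw [e1]
    exact (hq0' _ (hXb u)).1.2.2.1
  have hDz : mP I D = 0 := by
    refine (resample_one hP α D hDme).1 fun u => ?_
    have e1 : {w | Function.update u α w ∈ D} =
        {w | ((ph.X u, x (ph.X u)), w) ∈ S2 p α N τ} := by
      ext w
      simp only [D, Set.mem_ofPred_eq, Function.update_self, hxd (hupd u w)]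
      exact S2_congr p α N r5 (hupd u w) τ _ w
    rw [e1]
    exact (hq0' _ (hXb u)).1.2.2.2
  have hglue : ∀ u v, ph.X (glueR (Set.Iic α) u v) = YY p α ((ph.X u, ph.X u α), v) := by
    intro u v
    obtain ⟨g1, g2, -⟩ := r5 I p (Set.Iic α) (isLowerSet_Iic α)
    have hle : ∀ i ≤ α, ph.X (glueR (Set.Iic α) u v) i = ph.X u i := by
      intro i hi
      exact hX3 (Set.Iic α) (isLowerSet_Iic α) _ _
        (fun j hj => by simp only [glueR, hj, if_true]) i hi
    have key : ∀ i, ph.X (glueR (Set.Iic α) u v) i = YY p α ((ph.X u, ph.X u α), v) i := by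
      intro i
      induction i using WellFoundedLT.induction with
      | ind i ih =>
        by_cases hi : i ≤ α
        · rw [hle i hi]
          unfold YY
          rw [g1 _ _ i hi, Function.update_eq_self]
        · rw [hX1, hphgt i (not_le.1 hi)]
          have e1 : p.T i (ph.X (glueR (Set.Iic α) u v)) =
              p.T i (YY p α ((ph.X u, ph.X u α), v)) := p.T_congr ih
          rw [e1]
          have e2 : glueR (Set.Iic α) u v i = v i := by
            simp only [glueR]
            rw [if_neg (by simpa using hi)]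
          rw [e2]
          unfold YY
          rw [g2 _ _ i (by simpa using hi)]
    exact funext key
  have hEz : mP I E = 0 := by
    refine resample_above hP α E D hEme hDz fun u hu => ?_
    have hle : ∀ v, ∀ i ≤ α, ph.X (glueR (Set.Iic α) u v) i = ph.X u i := by
      intro v i hi
      exact hX3 (Set.Iic α) (isLowerSet_Iic α) _ _
        (fun j hj => by simp only [glueR, hj, if_true]) i hi
    have e1 : {v | glueR (Set.Iic α) u v ∈ E} =
        {v | alive (p.T α (ph.X u)) τ.length (x (ph.X u)) (ph.X u α) ∧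
          (YY p α ((ph.X u, ph.X u α), v), DrD (cD τ.length (x (ph.X u)) (ph.X u α))) ∈ N} := by
      ext v
      have a1 : p.T α (ph.X (glueR (Set.Iic α) u v)) = p.T α (ph.X u) :=
        p.T_congr fun j hj => hle v j hj.le
      have a2 : x (ph.X (glueR (Set.Iic α) u v)) = x (ph.X u) := hxd fun j hj => hle v j hj.le
      have a3 := hle v α le_rfl
      simp only [E, Set.mem_ofPred_eq]
      rw [a1, a2, a3, hglue u v]
    rw [e1]
    by_cases hal : alive (p.T α (ph.X u)) τ.length (x (ph.X u)) (ph.X u α)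
    · have e2 : ((ph.X u, ph.X u α), cD τ.length (x (ph.X u)) (ph.X u α)) ∉ NP p α N := by
        intro hc
        apply hu
        simp only [D, S2, Set.mem_ofPred_eq]
        rw [← hself u]
        exact ⟨hal, hc⟩
      simp only [NP, Set.mem_ofPred_eq, not_not] at e2
      simpa only [hal, true_and] using e2
    · simp [hal]
  have hfin : mP I {u | ph.X u ∈ A} ≠ 0 := by
    intro h0
    apply hBne
    have hsub : B ⊆ {u | ph.X u ∈ A} ∪ E := by
      intro u hu
      have hal : alive (p.T α (ph.X u)) τ.length (x (ph.X u)) (ph.X u α) := by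
        simp only [B, S1, Set.mem_ofPred_eq] at hu
        rw [← hself u] at hu
        exact hu
      by_cases hNu : (ph.X u, DrD (cD τ.length (x (ph.X u)) (ph.X u α))) ∈ N
      · exact Or.inr ⟨hal, hNu⟩
      · left
        refine ⟨hal, ?_⟩
        rw [hkey _ (hX2 u) hal]
        exact hNu
    exact measure_mono_null hsub (measure_union_null h0 hEz)
  obtain ⟨q, hq, hqA⟩ := hPM I ph A hAm hfin
  refine ⟨q, hq.trans hphp, hq.trans (hphq0.trans hq0r), c, fun y hy => (hqA hy).2⟩

end Pool.Agent.FL.H46
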